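import Pool.Agent.V1163.Conic.Bound
import Pool.Agent.V1163.Conic.Ico

set_option autoImplicit false

/-!
# Conics on the hypersurfaces `x₁ᵈ + x₂ᵈ + x₃ᵈ = x₄ᵈ + x₅ᵈ + x₆ᵈ`: the threshold is fifteen

For every `d ≥ 15` all conics on `X_d ⊂ ℙ⁵` are degenerate, and `X_14` contains a conic which is not
degenerate.  The bound is a Wronskian inequality for minimal linear relations between the `d`-th
powers of six binary quadratic forms; the conic on `X_14` comes from the six axes of the icosahedron.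
-/

namespace Pool.Agent.Results.MP_cd75ba_ag.ConicThreshold

open Polynomial LinearAlgebra.Projectivization

/-- The form `F_d (x) = x₁ᵈ + x₂ᵈ + x₃ᵈ - x₄ᵈ - x₅ᵈ - x₆ᵈ` on `ℂ⁶`. -/
def F (d : ℕ) (x : Fin 6 → ℂ) : ℂ := x 0 ^ d + x 1 ^ d + x 2 ^ d - x 3 ^ d - x 4 ^ d - x 5 ^ d

/-- The hypersurface `X_d = {F_d = 0}` of `ℙ⁵`. -/
def X (d : ℕ) : Set (ℙ ℂ (Fin 6 → ℂ)) := {p | F d p.rep = 0}

/-- A conic in `ℙ⁵`: in a plane `{[A y] : y ∈ ℂ³, y ≠ 0}`, where `A` is a `6 × 3` matrix with linearly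
independent columns, the zero locus of a nondegenerate quadratic form `yᵀ M y`. -/
def IsConic (S : Set (ℙ ℂ (Fin 6 → ℂ))) : Prop :=
  ∃ (A : Matrix (Fin 6) (Fin 3) ℂ) (M : Matrix (Fin 3) (Fin 3) ℂ),
    Function.Injective A.mulVec ∧ M.IsSymm ∧ M.det ≠ 0 ∧
    S = {p | ∃ y : Fin 3 → ℂ, p.rep = A.mulVec y ∧ dotProduct y (M.mulVec y) = 0}

/-- A curve in `ℙ⁵` is degenerate if `a x_i = b x_j` on it for some `i ≠ j` and `(a : b) ∈ ℙ¹`. -/
def Degenerate (S : Set (ℙ ℂ (Fin 6 → ℂ))) : Prop :=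
  ∃ i j : Fin 6, i ≠ j ∧ ∃ a b : ℂ, (a ≠ 0 ∨ b ≠ 0) ∧ ∀ p ∈ S, a * p.rep i - b * p.rep j = 0

/-! ### Conics of large degree are degenerate -/

/-- The zero locus of a nondegenerate quadratic form `Q` on a three-dimensional linear subspace. -/
def IsConicQ (S : Set (ℙ ℂ (Fin 6 → ℂ))) : Prop :=
  ∃ (W : Submodule ℂ (Fin 6 → ℂ)) (Q : QuadraticForm ℂ W), Module.finrank ℂ W = 3 ∧
    (∀ v : W, (∀ w : W, Q (v + w) = Q v + Q w) → v = 0) ∧
    S = {p | ∃ h : p.rep ∈ W, Q ⟨p.rep, h⟩ = 0}

lemma IsConic.toQ {S : Set (ℙ ℂ (Fin 6 → ℂ))} (h : IsConic S) : IsConicQ S := by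
  obtain ⟨A, M, hA, hM, hdet, rfl⟩ := h
  set ι : (Fin 3 → ℂ) →ₗ[ℂ] (Fin 6 → ℂ) := A.mulVecLin with hι
  have hinj : Function.Injective ι := hA
  set e := LinearEquiv.ofInjective ι hinj with he
  set Q0 : QuadraticForm ℂ (Fin 3 → ℂ) := M.toQuadraticForm' with hQ0
  have hQ0a : ∀ y, Q0 y = dotProduct y (M.mulVec y) := by
    intro y
    rw [hQ0, Matrix.toQuadraticForm', LinearMap.BilinMap.toQuadraticMap_apply,
      Matrix.toLinearMap₂'_apply']
  set Q : QuadraticForm ℂ (LinearMap.range ι) := Q0.comp e.symm.toLinearMap with hQ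
  have hQa : ∀ w, Q w = Q0 (e.symm w) := fun w => rfl
  have hea : ∀ y, ((e y : LinearMap.range ι) : Fin 6 → ℂ) = ι y := fun y => rfl
  refine ⟨LinearMap.range ι, Q, ?_, ?_, ?_⟩
  · rw [LinearMap.finrank_range_of_inj hinj, Module.finrank_fin_fun]
  · intro v hv
    have h1 : ∀ x : Fin 3 → ℂ, dotProduct x (M.mulVec (e.symm v)) = 0 := by
      intro x
      have h2 := hv (e x)
      rw [hQa, hQa, hQa, map_add, LinearEquiv.symm_apply_apply, hQ0a, hQ0a, hQ0a,
        Matrix.mulVec_add, add_dotProduct, dotProduct_add, dotProduct_add] at h2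
      have h3 : dotProduct (e.symm v) (M.mulVec x) = dotProduct x (M.mulVec (e.symm v)) := by
        rw [Matrix.dotProduct_mulVec, ← Matrix.mulVec_transpose, hM, dotProduct_comm]
      rw [h3] at h2
      linear_combination (1 / 2) * h2
    have h2 : M.mulVec (e.symm v) = 0 := dotProduct_eq_zero _ fun w => by rw [dotProduct_comm]; exact h1 w
    have h3 : e.symm v = 0 := Matrix.eq_zero_of_mulVec_eq_zero hdet h2
    simpa using h3
  · ext p
    constructor
    · rintro ⟨y, hy, hy0⟩
      have h1 : p.rep ∈ LinearMap.range ι := ⟨y, hy.symm⟩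
      refine ⟨h1, ?_⟩
      have h2 : (⟨p.rep, h1⟩ : LinearMap.range ι) = e y := Subtype.ext hy
      rw [h2, hQa, LinearEquiv.symm_apply_apply, hQ0a, hy0]
    · rintro ⟨h1, h2⟩
      refine ⟨e.symm ⟨p.rep, h1⟩, ?_, ?_⟩
      · show p.rep = ι (e.symm ⟨p.rep, h1⟩)
        rw [← hea, LinearEquiv.apply_symm_apply]
      · rw [← hQ0a]
        exact h2

lemma exists_diag {W : Submodule ℂ (Fin 6 → ℂ)} (Q : QuadraticForm ℂ W) {n : ℕ}
    (hn : Module.finrank ℂ W = n) (hQ : ∀ v : W, (∀ w : W, Q (v + w) = Q v + Q w) → v = 0) :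
    ∃ E : (Fin n → ℂ) ≃ₗ[ℂ] W, ∀ y, Q (E y) = ∑ i, y i ^ 2 := by
  subst hn
  have hsep : (QuadraticMap.associated (R := ℂ) Q).SeparatingLeft := by
    intro v hv
    apply hQ v
    intro w
    have h1 := hv w
    rw [QuadraticMap.associated_apply] at h1
    have h2 : Q (v + w) - Q v - Q w = 0 := by
      have h3 : (2 : ℂ) • (⅟(2 : ℂ) • (Q (v + w) - Q v - Q w)) = 0 := by
        rw [show ⅟(2 : ℂ) • (Q (v + w) - Q v - Q w) = 0 from by simpa using h1, smul_zero]
      simpa using h3
    linear_combination h2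
  obtain ⟨e⟩ := QuadraticForm.equivalent_weightedSumSquares_of_isAlgClosed Q hsep
  refine ⟨e.symm.toLinearEquiv, fun y => ?_⟩
  have h1 := e.symm.map_app y
  have h2 : Q (e.symm y) = ∑ i, y i ^ 2 := by
    rw [h1, QuadraticMap.weightedSumSquares_apply]
    apply Finset.sum_congr rfl
    intro i _
    simp [sq]
  exact h2

lemma F_smul (d : ℕ) (a : ℂ) (v : Fin 6 → ℂ) : F d (a • v) = a ^ d * F d v := by
  simp only [F, Pi.smul_apply, smul_eq_mul, mul_pow]
  ring

theorem upper (d : ℕ) (hd : 15 ≤ d) (S : Set (ℙ ℂ (Fin 6 → ℂ))) (hS : IsConic S)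
    (hSX : S ⊆ X d) : Degenerate S := by
  obtain ⟨W, Q, hW, hQ, rfl⟩ := hS.toQ
  obtain ⟨E, hE⟩ := exists_diag Q hW hQ
  by_contra hdeg
  -- the coordinate functionals
  set A : Fin 6 → Fin 3 → ℂ := fun i k => (E (Pi.single k 1) : Fin 6 → ℂ) i with hA
  have hcoord : ∀ (y : Fin 3 → ℂ) (i : Fin 6),
      (E y : Fin 6 → ℂ) i = y 0 * A i 0 + y 1 * A i 1 + y 2 * A i 2 := by
    intro y i
    have h1 : y = y 0 • Pi.single 0 1 + y 1 • Pi.single 1 1 + y 2 • Pi.single 2 1 := by
      funext k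
      fin_cases k <;> simp
    conv_lhs => rw [h1]
    rw [map_add, map_add, map_smul, map_smul, map_smul]
    simp [hA]
  -- two coordinates are not proportional
  have hnp : ∀ i j : Fin 6, i ≠ j → ∀ a b : ℂ, (∀ k, a * A i k - b * A j k = 0) → a = 0 ∧ b = 0 := by
    intro i j hij a b h
    by_contra hab
    apply hdeg
    refine ⟨i, j, hij, a, b, ?_, ?_⟩
    · by_contra h1
      push Not at h1
      exact hab h1
    · rintro p ⟨hp, -⟩
      have h1 : p.rep = (E (E.symm ⟨p.rep, hp⟩) : Fin 6 → ℂ) := by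
        rw [LinearEquiv.apply_symm_apply]
      rw [h1, hcoord, hcoord]
      linear_combination (E.symm ⟨p.rep, hp⟩ 0) * h 0 + (E.symm ⟨p.rep, hp⟩ 1) * h 1 +
        (E.symm ⟨p.rep, hp⟩ 2) * h 2
  have hAne : ∀ i, A i ≠ 0 := by
    intro i hi
    have h1 := hnp i (i + 1) (by fin_cases i <;> decide) 1 0 (by
      intro k
      rw [hi]
      simp)
    exact one_ne_zero h1.1
  -- choose the point at infinity
  set g : Fin 6 → ℂ[X] := fun i =>
    C (A i 0 + Complex.I * A i 2) * Polynomial.X ^ 2 + C (2 * A i 1) * Polynomial.X +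
      C (-A i 0 + Complex.I * A i 2) with hg
  have hgne : ∀ i, g i ≠ 0 := by
    intro i hi
    apply hAne i
    have h2 := congrArg (fun p => p.coeff 2) hi
    have h1 := congrArg (fun p => p.coeff 1) hi
    have h0 := congrArg (fun p => p.coeff 0) hi
    simp only [hg, coeff_add, coeff_C_mul, coeff_X_pow, coeff_X, coeff_C, coeff_zero] at h0 h1 h2
    norm_num at h0 h1 h2
    have e0 : A i 0 = 0 := by linear_combination (1 / 2) * h2 - (1 / 2) * h0
    have e2 : A i 2 = 0 := by
      have : Complex.I * A i 2 = 0 := by linear_combination h0 + e0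
      exact (mul_eq_zero.1 this).resolve_left Complex.I_ne_zero
    funext k
    fin_cases k
    · exact e0
    · exact h1
    · exact e2
  obtain ⟨c, hc⟩ : ∃ c : ℂ, ∀ i, (g i).eval c ≠ 0 := by
    have h1 : (∏ i, g i) ≠ 0 := Finset.prod_ne_zero_iff.2 fun i _ => hgne i
    by_contra h2
    push Not at h2
    apply h1
    apply Polynomial.funext
    intro x
    obtain ⟨i, hi⟩ := h2 x
    rw [eval_prod, eval_zero]
    exact Finset.prod_eq_zero (Finset.mem_univ i) hi
  have hcg : ∀ i, (g i).eval c =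
      A i 0 * (c ^ 2 - 1) + 2 * A i 1 * c + Complex.I * A i 2 * (c ^ 2 + 1) := by
    intro i
    simp only [hg, eval_add, eval_mul, eval_C, eval_pow, eval_X]
    ring
  -- the six quadratic polynomials
  set p : Fin 6 → ℂ[X] := fun i => C ((g i).eval c) * Polynomial.X ^ 2 +
    C (-2 * c * A i 0 - 2 * A i 1 - 2 * c * Complex.I * A i 2) * Polynomial.X +
    C (A i 0 + Complex.I * A i 2) with hp
  have hpdeg : ∀ i, (p i).natDegree = 2 := fun i => natDegree_quadratic (hc i)
  set y : ℂ → Fin 3 → ℂ := fun x => ![(c * x - 1) ^ 2 - x ^ 2, 2 * (c * x - 1) * x,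
    Complex.I * ((c * x - 1) ^ 2 + x ^ 2)] with hy
  have hpy : ∀ i x, (p i).eval x = (E (y x) : Fin 6 → ℂ) i := by
    intro i x
    rw [hcoord]
    simp only [hp, hy, hcg, eval_add, eval_mul, eval_C, eval_pow, eval_X]
    simp
    ring
  have hyne : ∀ x, y x ≠ 0 := by
    intro x hx
    have h0 := congrFun hx 0
    have h1 := congrFun hx 1
    have h2 := congrFun hx 2
    simp [hy] at h0 h1 h2
    have h3 : (c * x - 1) ^ 2 + x ^ 2 = 0 := h2
    have h4 : x ^ 2 = 0 := by linear_combination (1 / 2) * h3 - (1 / 2) * h0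
    have h5 : x = 0 := by simpa using h4
    rw [h5] at h3
    simp at h3
  have hzero : ∀ x, F d (E (y x) : Fin 6 → ℂ) = 0 := by
    intro x
    have hne : (E (y x) : Fin 6 → ℂ) ≠ 0 := by
      intro h
      apply hyne x
      have : E (y x) = 0 := Subtype.ext h
      simpa using this
    obtain ⟨u, hu⟩ := Projectivization.exists_smul_eq_mk_rep ℂ _ hne
    have hu' : (Projectivization.mk ℂ _ hne).rep = (u : ℂ) • (E (y x) : Fin 6 → ℂ) := hu.symm
    have hmem : (Projectivization.mk ℂ _ hne) ∈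
        {p : ℙ ℂ (Fin 6 → ℂ) | ∃ h : p.rep ∈ W, Q ⟨p.rep, h⟩ = 0} := by
      have h1 : (Projectivization.mk ℂ _ hne).rep ∈ W := by
        rw [hu']
        exact W.smul_mem _ (E (y x)).2
      refine ⟨h1, ?_⟩
      have h2 : (⟨(Projectivization.mk ℂ _ hne).rep, h1⟩ : W) = (u : ℂ) • E (y x) :=
        Subtype.ext hu'
      rw [h2, QuadraticMap.map_smul, hE, Fin.sum_univ_three]
      have h3 : y x 0 ^ 2 + y x 1 ^ 2 + y x 2 ^ 2 = 0 := by
        simp [hy]
        linear_combination ((c * x - 1) ^ 2 + x ^ 2) ^ 2 * Complex.I_sq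
      rw [h3, smul_zero]
    have h4 : F d (Projectivization.mk ℂ _ hne).rep = 0 := hSX hmem
    rw [hu', F_smul] at h4
    exact (mul_eq_zero.1 h4).resolve_left (pow_ne_zero _ u.ne_zero)
  refine Pool.Agent.V1163.Conic.no_six hd p hpdeg ?_ ![1, 1, 1, -1, -1, -1] ?_ ?_
  · intro i j hij a b hab
    have h2 := congrArg (fun p => p.coeff 2) hab
    have h1 := congrArg (fun p => p.coeff 1) hab
    have h0 := congrArg (fun p => p.coeff 0) hab
    simp only [hp, coeff_add, coeff_C_mul, coeff_X_pow, coeff_X, coeff_C] at h0 h1 h2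
    norm_num at h0 h1 h2
    rw [hcg, hcg] at h2
    have e1 : a * A i 1 - b * A j 1 = 0 := by
      linear_combination (-1 / 2) * h1 - c * h0
    have e0 : a * A i 0 - b * A j 0 = 0 := by
      linear_combination (-1 / 2) * h2 + c * e1 + (1 / 2) * (c ^ 2 + 1) * h0
    have e2 : a * A i 2 - b * A j 2 = 0 := by
      have : Complex.I * (a * A i 2 - b * A j 2) = 0 := by linear_combination h0 - e0
      exact (mul_eq_zero.1 this).resolve_left Complex.I_ne_zero
    refine (hnp i j hij a b ?_).1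
    intro k
    fin_cases k
    · exact e0
    · exact e1
    · exact e2
  · intro i
    fin_cases i <;> simp
  · apply Polynomial.funext
    intro x
    rw [eval_finsetSum, eval_zero, ← hzero x]
    simp only [Fin.sum_univ_six, F, eval_mul, eval_C, eval_pow, hpy]
    simp
    ring

/-! ### The icosahedral conic on `X_14` -/

theorem lower : ∃ S : Set (ℙ ℂ (Fin 6 → ℂ)), IsConic S ∧ S ⊆ X 14 ∧ ¬ Degenerate S := by
  obtain ⟨z, hz⟩ : ∃ z : ℂ, IsPrimitiveRoot z 5 := ⟨_, Complex.isPrimitiveRoot_exp 5 (by norm_num)⟩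
  obtain ⟨μ, hμ⟩ := IsAlgClosed.exists_pow_nat_eq (-1 : ℂ) (n := 14) (by norm_num)
  obtain ⟨ρ, hρ⟩ := IsAlgClosed.exists_pow_nat_eq (5 : ℂ) (n := 2) (by norm_num)
  have hz5 : z ^ 5 = 1 := hz.pow_eq_one
  have hzs : 1 + z + z ^ 2 + z ^ 3 + z ^ 4 = 0 := by
    have := hz.geom_sum_eq_zero (by norm_num)
    simp only [Finset.sum_range_succ, Finset.sum_range_zero] at this
    linear_combination this
  have hμ0 : μ ≠ 0 := by
    rintro rfl
    norm_num at hμ
  have hρ0 : ρ ≠ 0 := by
    rintro rfl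
    norm_num at hρ
  have hz0 : z ≠ 0 := hz.ne_zero (by norm_num)
  -- the linear map
  set α : Fin 6 → ℂ := ![1, z, z ^ 2, μ * z ^ 3, μ * z ^ 4, 0] with hα
  set β : Fin 6 → ℂ := ![1, 1, 1, μ, μ, μ * ρ] with hβ
  set γ : Fin 6 → ℂ := ![1, z ^ 4, z ^ 3, μ * z ^ 2, μ * z, 0] with hγ
  set A : Matrix (Fin 6) (Fin 3) ℂ := Matrix.of fun i => ![α i, β i, -γ i] with hA
  set M : Matrix (Fin 3) (Fin 3) ℂ := !![0, 0, -1; 0, 2, 0; -1, 0, 0] with hM
  set ι : (Fin 3 → ℂ) →ₗ[ℂ] (Fin 6 → ℂ) := A.mulVecLin with hι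
  have hιa : ∀ y i, ι y i = y 0 * α i + y 1 * β i - y 2 * γ i := by
    intro y i
    simp [hι, hA, Matrix.mulVec, dotProduct, Fin.sum_univ_three]
    ring
  have hMa : ∀ y, dotProduct y (M.mulVec y) = 2 * (y 1 * y 1 - y 0 * y 2) := by
    intro y
    simp [hM, Matrix.mulVec, dotProduct, Fin.sum_univ_three]
    ring
  have hzne : ∀ a b : ℕ, a < 5 → b < 5 → a ≠ b → z ^ a ≠ z ^ b := fun a b ha hb hab h =>
    hab (hz.pow_inj ha hb h)
  have hinj : Function.Injective ι := by
    rw [← LinearMap.ker_eq_bot, LinearMap.ker_eq_bot']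
    intro y hy
    have h0 := congrFun hy 0
    have h1 := congrFun hy 1
    have h5 := congrFun hy 5
    rw [hιa] at h0 h1 h5
    simp [hα, hβ, hγ] at h0 h1 h5
    have e1 : y 1 = 0 := by
      rcases h5 with h | h
      · exact h
      · exact absurd h (by
          rintro (h | h)
          · exact hμ0 h
          · exact hρ0 h)
    rw [e1] at h0 h1
    have e0 : y 0 = y 2 := by linear_combination h0
    have e2 : y 2 = 0 := by
      have h3 : y 2 * (z - z ^ 4) = 0 := by rw [e0] at h1; linear_combination h1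
      rcases mul_eq_zero.1 h3 with h | h
      · exact h
      · exfalso
        have := hzne 1 4 (by norm_num) (by norm_num) (by norm_num)
        apply this
        rw [pow_one]
        linear_combination h
    funext k
    fin_cases k
    · exact e0.trans e2
    · exact e1
    · exact e2
  refine ⟨{p | ∃ y : Fin 3 → ℂ, p.rep = A.mulVec y ∧ dotProduct y (M.mulVec y) = 0},
    ⟨A, M, hinj, ?_, ?_, rfl⟩, ?_, ?_⟩
  · ext i j
    fin_cases i <;> fin_cases j <;> simp [hM]
  · simp [hM, Matrix.det_fin_three]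
  · -- the conic lies on `X 14`
    rintro p ⟨y, h1, hy0⟩
    show F 14 p.rep = 0
    replace h1 : p.rep = ι y := h1
    have h2 : y 1 * y 1 - y 0 * y 2 = 0 := by
      rw [hMa] at hy0
      exact (mul_eq_zero.1 hy0).resolve_left two_ne_zero
    obtain ⟨s, t, hs, hst, ht⟩ : ∃ s t : ℂ, y 0 = s ^ 2 ∧ y 1 = s * t ∧ y 2 = t ^ 2 := by
      obtain ⟨s, hs⟩ := IsAlgClosed.exists_pow_nat_eq (y 0) (n := 2) (by norm_num)
      by_cases hs0 : s = 0
      · obtain ⟨t, ht⟩ := IsAlgClosed.exists_pow_nat_eq (y 2) (n := 2) (by norm_num)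
        refine ⟨s, t, hs.symm, ?_, ht.symm⟩
        have h3 : y 1 * y 1 = 0 := by
          rw [← hs, hs0] at h2
          linear_combination h2
        rw [hs0, zero_mul]
        exact mul_self_eq_zero.1 h3
      · refine ⟨s, y 1 / s, hs.symm, ?_, ?_⟩
        · field_simp
        · field_simp
          rw [← hs] at h2
          linear_combination -h2
    rw [h1]
    have h3 := Pool.Agent.V1163.Conic.ico_sum z s t hz5 hzs
    simp only [F, hιa, hs, hst, ht]
    simp [hα, hβ, hγ]
    have hμρ : (s * t * (μ * ρ)) ^ 14 = -78125 * (s * t) ^ 14 := by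
      have : (s * t * (μ * ρ)) ^ 14 = (s * t) ^ 14 * μ ^ 14 * (ρ ^ 2) ^ 7 := by ring
      rw [this, hμ, hρ]
      ring
    have h33 : (s ^ 2 * (μ * z ^ 3) + s * t * μ - t ^ 2 * (μ * z ^ 2)) ^ 14 =
        -(z ^ 3 * s ^ 2 + s * t - z ^ 2 * t ^ 2) ^ 14 := by
      have : (s ^ 2 * (μ * z ^ 3) + s * t * μ - t ^ 2 * (μ * z ^ 2)) ^ 14 =
        μ ^ 14 * (z ^ 3 * s ^ 2 + s * t - z ^ 2 * t ^ 2) ^ 14 := by rw [← mul_pow]; ring_nf
      rw [this, hμ]
      ring
    have h44 : (s ^ 2 * (μ * z ^ 4) + s * t * μ - t ^ 2 * (μ * z)) ^ 14 =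
        -(z ^ 4 * s ^ 2 + s * t - z * t ^ 2) ^ 14 := by
      have : (s ^ 2 * (μ * z ^ 4) + s * t * μ - t ^ 2 * (μ * z)) ^ 14 =
        μ ^ 14 * (z ^ 4 * s ^ 2 + s * t - z * t ^ 2) ^ 14 := by rw [← mul_pow]; ring_nf
      rw [this, hμ]
      ring
    rw [hμρ, h33, h44]
    have h00 : (s ^ 2 + s * t - t ^ 2) ^ 14 + (s ^ 2 * z + s * t - t ^ 2 * z ^ 4) ^ 14 +
        (s ^ 2 * z ^ 2 + s * t - t ^ 2 * z ^ 3) ^ 14 = (s ^ 2 + s * t - t ^ 2) ^ 14 +
        (z * s ^ 2 + s * t - z ^ 4 * t ^ 2) ^ 14 + (z ^ 2 * s ^ 2 + s * t - z ^ 3 * t ^ 2) ^ 14 := by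
      rw [mul_comm (s ^ 2) z, mul_comm (t ^ 2) (z ^ 4), mul_comm (s ^ 2) (z ^ 2),
        mul_comm (t ^ 2) (z ^ 3)]
    linear_combination h00 + h3
  · -- it is not degenerate
    rintro ⟨i, j, hij, a, b, hab, h⟩
    have hpt : ∀ s t : ℂ, (s ≠ 0 ∨ t ≠ 0) →
        a * ι ![s ^ 2, s * t, t ^ 2] i - b * ι ![s ^ 2, s * t, t ^ 2] j = 0 := by
      intro s t hst
      have hne : ι ![s ^ 2, s * t, t ^ 2] ≠ 0 := by
        intro h0
        have h1 := hinj (h0.trans (map_zero ι).symm)
        have h2 := congrFun h1 0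
        have h3 := congrFun h1 2
        simp at h2 h3
        rcases hst with h4 | h4
        · exact h4 h2
        · exact h4 h3
      obtain ⟨u, hu⟩ := Projectivization.exists_smul_eq_mk_rep ℂ _ hne
      have hu' : (Projectivization.mk ℂ _ hne).rep = (u : ℂ) • ι ![s ^ 2, s * t, t ^ 2] := hu.symm
      have h2 := h (Projectivization.mk ℂ _ hne) ⟨(u : ℂ) • ![s ^ 2, s * t, t ^ 2], by
        show (Projectivization.mk ℂ _ hne).rep = ι ((u : ℂ) • ![s ^ 2, s * t, t ^ 2])
        rw [hu', map_smul], by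
        rw [hMa]
        simp
        ring⟩
      rw [hu'] at h2
      simp only [Pi.smul_apply, smul_eq_mul] at h2
      have h3 : (u : ℂ) * (a * ι ![s ^ 2, s * t, t ^ 2] i - b * ι ![s ^ 2, s * t, t ^ 2] j) = 0 := by
        linear_combination h2
      exact (mul_eq_zero.1 h3).resolve_left u.ne_zero
    have k0 := hpt 1 0 (Or.inl one_ne_zero)
    have k2 := hpt 0 1 (Or.inr one_ne_zero)
    have k1 := hpt 1 1 (Or.inl one_ne_zero)
    simp only [hιa] at k0 k1 k2
    simp at k0 k1 k2
    have hα' : a * α i = b * α j := by linear_combination k0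
    have hβ' : a * β i = b * β j := by linear_combination k1 - k0 - k2
    have hβ0 : ∀ l, β l ≠ 0 := by
      intro l
      fin_cases l <;> simp [hβ, hμ0, hρ0]
    have hdet : α i * β j - α j * β i ≠ 0 := by
      have hlt : ∀ i j : Fin 6, i < j → α i * β j - α j * β i ≠ 0 := by
        intro i j hij
        have z1 : z ≠ 1 := by
          have := hzne 1 0 (by norm_num) (by norm_num) (by norm_num); simpa using this
        have z2 : z ^ 2 ≠ 1 := by
          have := hzne 2 0 (by norm_num) (by norm_num) (by norm_num); simpa using this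
        have z3 : z ^ 3 ≠ 1 := by
          have := hzne 3 0 (by norm_num) (by norm_num) (by norm_num); simpa using this
        have z4 : z ^ 4 ≠ 1 := by
          have := hzne 4 0 (by norm_num) (by norm_num) (by norm_num); simpa using this
        have key : ∀ a b : ℕ, a < 5 → b < 5 → a ≠ b → z ^ a - z ^ b ≠ 0 := fun a b ha hb hab =>
          sub_ne_zero.2 (hzne a b ha hb hab)
        fin_cases i <;> fin_cases j <;> first
          | (exfalso; revert hij; decide)
          | skip
        all_goals simp only [hα, hβ]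
        all_goals simp
        · exact fun h => z1 (by linear_combination -h)
        · exact fun h => z2 (by linear_combination -h)
        · intro h
          have : μ * (z ^ 3 - 1) = 0 := by linear_combination -h
          rcases mul_eq_zero.1 this with h | h
          · exact hμ0 h
          · exact z3 (by linear_combination h)
        · intro h
          have : μ * (z ^ 4 - 1) = 0 := by linear_combination -h
          rcases mul_eq_zero.1 this with h | h
          · exact hμ0 h
          · exact z4 (by linear_combination h)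
        · exact ⟨hμ0, hρ0⟩
        · exact fun h => key 1 2 (by norm_num) (by norm_num) (by norm_num) (by linear_combination h)
        · intro h
          have : μ * (z ^ 1 - z ^ 3) = 0 := by linear_combination h
          rcases mul_eq_zero.1 this with h | h
          · exact hμ0 h
          · exact key 1 3 (by norm_num) (by norm_num) (by norm_num) h
        · intro h
          have : μ * (z ^ 1 - z ^ 4) = 0 := by linear_combination h
          rcases mul_eq_zero.1 this with h | h
          · exact hμ0 h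
          · exact key 1 4 (by norm_num) (by norm_num) (by norm_num) h
        · exact ⟨hz0, hμ0, hρ0⟩
        · intro h
          have : μ * (z ^ 2 - z ^ 3) = 0 := by linear_combination h
          rcases mul_eq_zero.1 this with h | h
          · exact hμ0 h
          · exact key 2 3 (by norm_num) (by norm_num) (by norm_num) h
        · intro h
          have : μ * (z ^ 2 - z ^ 4) = 0 := by linear_combination h
          rcases mul_eq_zero.1 this with h | h
          · exact hμ0 h
          · exact key 2 4 (by norm_num) (by norm_num) (by norm_num) h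
        · exact ⟨hz0, hμ0, hρ0⟩
        · intro h
          have : μ * μ * (z ^ 3 - z ^ 4) = 0 := by linear_combination h
          rcases mul_eq_zero.1 this with h | h
          · exact mul_ne_zero hμ0 hμ0 h
          · exact key 3 4 (by norm_num) (by norm_num) (by norm_num) h
        · exact ⟨⟨hμ0, hz0⟩, hμ0, hρ0⟩
        · exact ⟨⟨hμ0, hz0⟩, hμ0, hρ0⟩
      rcases lt_or_gt_of_ne hij with h | h
      · exact hlt i j h
      · intro h1
        exact hlt j i h (by linear_combination -h1)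
    have ha : a = 0 := by
      have h1 : a * (α i * β j - α j * β i) = 0 := by
        linear_combination β j * hα' - α j * hβ'
      exact (mul_eq_zero.1 h1).resolve_right hdet
    have hb : b = 0 := by
      rw [ha, zero_mul] at hβ'
      exact (mul_eq_zero.1 hβ'.symm).resolve_right (hβ0 j)
    rcases hab with h | h
    · exact h ha
    · exact h hb

/-- The least positive integer `d₀` such that for every `d ≥ d₀` every conic contained in `X_d` is
degenerate is `15`. -/
theorem result : IsLeast {d₀ : ℕ | 0 < d₀ ∧ ∀ d, d₀ ≤ d → ∀ S : Set (ℙ ℂ (Fin 6 → ℂ)),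
    IsConic S → S ⊆ X d → Degenerate S} 15 := by
  refine ⟨⟨by norm_num, fun d hd S hS hSX => upper d hd S hS hSX⟩, ?_⟩
  rintro k ⟨-, hk⟩
  by_contra hlt
  push Not at hlt
  obtain ⟨S, hS, hSX, hdeg⟩ := lower
  exact hdeg (hk 14 (by omega) S hS hSX)

end Pool.Agent.Results.MP_cd75ba_ag.ConicThreshold
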